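import Pool.Agent.R910.Mu.RelLayers

/-!
# Iwasawa's mu-invariant for abelian extensions of imaginary quadratic fields: growth of the
components of a counterexample
-/

set_option autoImplicit false

open NumberField

namespace Pool.Agent.Results.MP_b78433_nt.ComponentGrowth

open Pool.Agent.R910.Mu

/-- The field `E` is the layer of degree `p ^ m` of the cyclotomic `Z_p`-extension of `ℚ`: the
totally real field of degree `p ^ m` inside the field of the roots of unity of order
`p ^ (m + 2)`. -/
def IsLayer (p m : ℕ) (E : IntermediateField ℚ Om) : Prop :=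
  E ≤ IntermediateField.adjoin ℚ {z : Om | z ^ (p ^ (m + 2)) = 1} ∧
    Module.finrank ℚ E = p ^ m ∧ ∀ (σ : Om →+* ℂ), ∀ x ∈ E, starRingEnd ℂ (σ x) = σ x

/-- The mu-invariant of the cyclotomic `Z_p`-extension of `K` vanishes: the `p`-adic valuations of
the class numbers of the fields `K E`, `E` the layer of degree `p ^ m` of the cyclotomic
`Z_p`-extension of `ℚ`, are at most `C (m + 1)`. -/
def MuVanishes (p : ℕ) (K : IntermediateField ℚ Om) : Prop :=
  ∃ C : ℕ, ∀ (m : ℕ) (E : IntermediateField ℚ Om), IsLayer p m E →
    padicValNat p (Nat.card (ClassGroup (𝓞 ↥(K ⊔ E)))) ≤ C * (m + 1)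

/-- The theories `𝒯 W` over the imaginary quadratic field `k`, of dimensions `n W`, describe the
components of the modules `X` of `K` and of the composita of `K` with the finite extensions of `k`.
For an abelian extension `K` of `k` of degree prime to `p` let `W` run through the irreducible
modules of the Galois group of `K` over `k` in characteristic `p`, let `n W` be the dimension of
`W`, and `𝒯 W` the Iwasawa cohomology of the modules `(A ⊗ W)(1)`, tensored with `F_p((T))`. Then
this is known: `k` has one infinite place, which is complex, so that the first condition is the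
Euler characteristic formula; the other one is Shapiro's lemma and Kummer theory. -/
structure DescribesComponents {p : ℕ} [Fact p.Prime] {k : IntermediateField ℚ Om} {ι : Type}
    (𝒯 : ι → FullCohomology p (GalRel k)) (n : ι → ℕ) (K : IntermediateField ℚ Om) : Prop where
  euler : ∀ (W : ι) (A : GMod p (GalRel k)),
    (𝒯 W).h1 A = (𝒯 W).h2 A + n W * Module.finrank (ZMod p) A.carrier
  base : MuVanishes p K ↔ ∀ W, (𝒯 W).h2 (triv p (GalRel k)) = 0
  extensions : ∀ (M : IntermediateField ℚ Om) (hM : FiniteDimensional ℚ M), k ≤ M →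
    (MuVanishes p (K ⊔ M) ↔ ∀ W, (𝒯 W).h2 (permRel p k M hM) = 0)

/-- **Growth of the components.** For Iwasawa cohomology `(𝒯 W).h2 (permRel p k M hM)` is `n W`
times the multiplicity of the dual of `W` in the module `X` of `K M` modulo `p`, localized. -/
theorem result (p : ℕ) [Fact p.Prime] (k : IntermediateField ℚ Om)
    (_hk : Module.finrank ℚ k = 2) (_him : IsEmpty (k →+* ℝ)) (K : IntermediateField ℚ Om)
    (_hK : FiniteDimensional ℚ K) (_hab : IsAbelianOver k K) {ι : Type}
    (𝒯 : ι → FullCohomology p (GalRel k)) (n : ι → ℕ) (hT : DescribesComponents 𝒯 n K) :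
    (∀ (W : ι) (b : ℕ) (M : IntermediateField ℚ Om) (hM : FiniteDimensional ℚ M),
      IsElemOver p k M b → ∀ j : ℕ, j ≤ b * (p - 1) →
        countEq p b j * (𝒯 W).h2 (triv p (GalRel k)) ≤
          (𝒯 W).h2 (permRel p k M hM) + n W * countLt p b j) ∧
    (¬ MuVanishes p K → ∃ W : ι, ∀ (b : ℕ) (M : IntermediateField ℚ Om)
      (hM : FiniteDimensional ℚ M), IsElemOver p k M b → ∀ j : ℕ, (n W + 3) * j ≤ b →
        (n W + 2) ^ j ≤ (n W + 1) * (𝒯 W).h2 (permRel p k M hM)) := by
  refine ⟨fun W b M hM hel j hj =>
    layers_rel k (𝒯 W) (n W) b M hM hel (fun A _ => hT.euler W A) j hj, fun h => ?_⟩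
  rw [hT.base] at h
  push Not at h
  obtain ⟨W, hW⟩ := h
  exact ⟨W, fun b M hM hel j hj =>
    exponential_rel k (𝒯 W) (n W) b M hM hel (fun A _ => hT.euler W A) hW j hj⟩

end Pool.Agent.Results.MP_b78433_nt.ComponentGrowth
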