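import Pool.Agent.R910.Mu.ImQuad

/-!
# Iwasawa's mu-invariant for abelian extensions of imaginary quadratic fields: reduction to
extensions of `p`-power degree
-/

set_option autoImplicit false

open NumberField

namespace Pool.Agent.Results.MP_b78433_nt.PrimePowerDegree

open Pool.Agent.R910.Mu

/-- The field `E` is the layer of degree `p ^ m` of the cyclotomic `Z_p`-extension of `ℚ`: the
totally real field of degree `p ^ m` inside the field of the roots of unity of order
`p ^ (m + 2)`. -/
def IsLayer (p m : ℕ) (E : IntermediateField ℚ Om) : Prop :=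
  E ≤ IntermediateField.adjoin ℚ {z : Om | z ^ (p ^ (m + 2)) = 1} ∧
    Module.finrank ℚ E = p ^ m ∧ ∀ (σ : Om →+* ℂ), ∀ x ∈ E, starRingEnd ℂ (σ x) = σ x

/-- The mu-invariant of the cyclotomic `Z_p`-extension of `K` vanishes: the `p`-adic valuations of
the class numbers of the fields `K E`, `E` the layer of degree `p ^ m` of the cyclotomic
`Z_p`-extension of `ℚ`, are at most `C (m + 1)`. -/
def MuVanishes (p : ℕ) (K : IntermediateField ℚ Om) : Prop :=
  ∃ C : ℕ, ∀ (m : ℕ) (E : IntermediateField ℚ Om), IsLayer p m E →
    padicValNat p (Nat.card (ClassGroup (𝓞 ↥(K ⊔ E)))) ≤ C * (m + 1)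

/-- The localized cohomology theory over the imaginary quadratic field `k` computes the class
groups. For the Iwasawa cohomology of the twists `A(1)` of finite modules `A` this is known: the
second cohomology of the twisted permutation module of `K` has the rank of `X(K)/p`, the number of
factors `Λ/(p ^ m_i)` of the Iwasawa module of `K`, and the first cohomology of `Z/p(1)` over `k`
has rank one, by the Euler characteristic formula and the theorem of Ferrero and Washington
for `k`. -/
structure ComputesClassGroups {p : ℕ} [Fact p.Prime] {k : IntermediateField ℚ Om}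
    (T : LocalizedCohomology p (GalRel k)) : Prop where
  h1_triv : T.h1 (triv p (GalRel k)) = 1
  zero_iff : ∀ (K : IntermediateField ℚ Om) (hK : FiniteDimensional ℚ K), k ≤ K →
    (T.h2 (permRel p k K hK) = 0 ↔ MuVanishes p K)

/-- **Extensions of `p`-power degree suffice.** -/
theorem result (p : ℕ) [Fact p.Prime] (k : IntermediateField ℚ Om)
    (hk : Module.finrank ℚ k = 2) (_him : IsEmpty (k →+* ℝ))
    (hsol : HasSplitSolutions p (GalRel k)) (T : LocalizedCohomology p (GalRel k))
    (hT : ComputesClassGroups T) (K : IntermediateField ℚ Om) (hK : FiniteDimensional ℚ K)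
    (hab : IsAbelianOver k K) :
    MuVanishes p K ↔
      ∀ F : IntermediateField ℚ Om, FiniteDimensional ℚ F → IsSpecial p k K F →
        MuVanishes p F := by
  have hkf : FiniteDimensional ℚ k := Module.finite_of_finrank_pos (by omega)
  have h := abelian_iff_special hkf hsol T hT.h1_triv K hK hab
  rw [hT.zero_iff K hK hab.1] at h
  rw [h]
  refine forall_congr' fun F => forall_congr' fun hF => ⟨fun hh hs => ?_, fun hh hs => ?_⟩
  · have hkF : k ≤ F := by
      obtain ⟨n, d, L, _, _, _, _, _, hkF, _⟩ := hs
      exact hkF
    exact (hT.zero_iff F hF hkF).mp (hh hs)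
  · have hkF : k ≤ F := by
      obtain ⟨n, d, L, _, _, _, _, _, hkF, _⟩ := hs
      exact hkF
    exact (hT.zero_iff F hF hkF).mpr (hh hs)

end Pool.Agent.Results.MP_b78433_nt.PrimePowerDegree
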